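import Pool.Agent.H532R3.Hall.Main

set_option autoImplicit false

open MeasureTheory
open scoped Real

namespace Pool.Agent.Results.MP_92974c_pr.SquareBeatsDisc

open Pool.Agent.H532R3.Hall

/-- The strong form of Hall's conjecture is false, already in the plane: for all angles `φ` slightly
above `π / 3` the unit square `S` satisfies `F_S(φ) > F_B(φ)`, `B` the unit disc. -/
theorem result :
    (∃ δ : ℝ, 0 < δ ∧ ∀ φ : ℝ, π / 3 < φ → φ < π / 3 + δ →
      F (Metric.ball (0 : EuclideanSpace ℝ (Fin 2)) 1) φ < F unitSquare φ) ∧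
    ¬ (∀ n : ℕ, 2 ≤ n → ∀ S : Set (EuclideanSpace ℝ (Fin n)), Bornology.IsBounded S →
        Convex ℝ S → (interior S).Nonempty →
        ∀ φ : ℝ, F S φ ≤ F (Metric.ball (0 : EuclideanSpace ℝ (Fin n)) 1) φ) := by
  have h := square_beats_disc
  rw [Filter.eventually_iff, mem_nhdsGT_iff_exists_Ioo_subset] at h
  obtain ⟨u, hu, hsub⟩ := h
  rw [Set.mem_Ioi] at hu
  have h1 : ∃ δ : ℝ, 0 < δ ∧ ∀ φ : ℝ, π / 3 < φ → φ < π / 3 + δ →
      F (Metric.ball (0 : EuclideanSpace ℝ (Fin 2)) 1) φ < F unitSquare φ := by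
    refine ⟨u - π / 3, by linarith, fun φ h1 h2 => ?_⟩
    exact hsub ⟨h1, by linarith⟩
  refine ⟨h1, fun hall => ?_⟩
  obtain ⟨δ, hδ, hφ⟩ := h1
  have h2 := hφ (π / 3 + δ / 2) (by linarith) (by linarith)
  have h3 := hall 2 le_rfl unitSquare unitSquare_bounded unitSquare_convex unitSquare_interior
    (π / 3 + δ / 2)
  linarith

end Pool.Agent.Results.MP_92974c_pr.SquareBeatsDisc
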